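import Mathlib
import Pool.Agent.R229.DTC

/-! A Stein manifold with a tame set and transitive automorphism group which is not holomorphically
flexible. -/

set_option autoImplicit false

open Pool.Agent.R229.DTC

namespace Pool.Agent.Results.MP_2740df_an.FlexibilityFails

theorem result : ∃ Ω : Set (ℂ × ℂ × ℂ), IsOpen Ω ∧ IsConnected Ω ∧ IsStein Ω ∧
    (∃ A, IsTameSet Ω A) ∧ AutTransitive Ω ∧ ¬ Flexible Ω := by
  obtain ⟨Ω, h1, h2, h3, h4, h5, h6, -⟩ := joint
  exact ⟨Ω, h1, h2, h3, h4, h5, h6⟩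

end Pool.Agent.Results.MP_2740df_an.FlexibilityFails
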